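import Pool.Agent.Helper70.Isg.Goals2

/-!
# Packet FKDEC of MP_600500_pr: decomposition along the cluster of the ghost vertex
-/

open Finset

noncomputable section

namespace Pool.Agent.Helper65.Isg

open Pool.Agent.Helper70.Isg

variable {V : Type}

/-- First endpoint of an edge. -/
def ea (e : (V × V) ⊕ V) : Option V := Sum.elim (fun p => some p.1) (fun u => some u) e

/-- Second endpoint of an edge. -/
def eb (e : (V × V) ⊕ V) : Option V := Sum.elim (fun p => some p.2) (fun _ => none) e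

/-- Coupling of an edge. -/
def ej (J : V → V → ℝ) (K : V → ℝ) (e : (V × V) ⊕ V) : ℝ :=
  Sum.elim (fun p => J p.1 p.2) K e

/-- Edge weight. -/
def er (J : V → V → ℝ) (K : V → ℝ) (e : (V × V) ⊕ V) : ℝ := Real.exp (2 * ej J K e) - 1

theorem sum_ej [Fintype V] (J : V → V → ℝ) (K : V → ℝ) (σ : V → Bool) :
    ∑ e, ej J K e * (osg σ (ea e) * osg σ (eb e)) = gE J K σ := by
  rw [Fintype.sum_sum_type, Fintype.sum_prod_type]
  simp [ej, ea, eb, osg, gE]

theorem er_nonneg {J : V → V → ℝ} {K : V → ℝ} (hJ : ∀ u v, 0 ≤ J u v) (hK : ∀ u, 0 ≤ K u)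
    (e : (V × V) ⊕ V) : 0 ≤ er J K e := by
  have h : 0 ≤ ej J K e := by
    rcases e with ⟨u, v⟩ | u
    · exact hJ u v
    · exact hK u
  have h1 : 1 ≤ Real.exp (2 * ej J K e) := Real.one_le_exp (by linarith)
  unfold er
  linarith

theorem fw_nonneg {J : V → V → ℝ} {K : V → ℝ} (hJ : ∀ u v, 0 ≤ J u v) (hK : ∀ u, 0 ≤ K u)
    (ω : Finset ((V × V) ⊕ V)) : 0 ≤ fw ea eb (er J K) ω := by
  unfold fw
  exact mul_nonneg (Finset.prod_nonneg fun e _ => er_nonneg hJ hK e) (Nat.cast_nonneg _)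

theorem fw_empty_pos [Fintype V] (J : V → V → ℝ) (K : V → ℝ) :
    0 < fw ea eb (er J K) (∅ : Finset ((V × V) ⊕ V)) := by
  classical
  unfold fw
  rw [Finset.prod_empty, one_mul]
  exact_mod_cast Nat.card_pos

/-- Weight of an event. -/
def PP [Fintype V] (J : V → V → ℝ) (K : V → ℝ) (Q : Finset ((V × V) ⊕ V) → Prop) : ℝ :=
  ∑ ω, (open Classical in if Q ω then fw ea eb (er J K) ω else 0)

theorem PP_nonneg [Fintype V] {J : V → V → ℝ} {K : V → ℝ} (hJ : ∀ u v, 0 ≤ J u v)
    (hK : ∀ u, 0 ≤ K u) (Q : Finset ((V × V) ⊕ V) → Prop) : 0 ≤ PP J K Q := by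
  unfold PP
  apply Finset.sum_nonneg
  intro ω _
  split_ifs
  · exact fw_nonneg hJ hK ω
  · exact le_rfl

theorem PP_true_pos [Fintype V] {J : V → V → ℝ} {K : V → ℝ} (hJ : ∀ u v, 0 ≤ J u v)
    (hK : ∀ u, 0 ≤ K u) : 0 < PP J K (fun _ => True) := by
  unfold PP
  simp only [if_true]
  exact Finset.sum_pos' (fun ω _ => fw_nonneg hJ hK ω) ⟨∅, Finset.mem_univ _, fw_empty_pos J K⟩

theorem PP_congr [Fintype V] (J : V → V → ℝ) (K : V → ℝ) {Q Q' : Finset ((V × V) ⊕ V) → Prop}
    (h : ∀ ω, Q ω ↔ Q' ω) : PP J K Q = PP J K Q' := by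
  have : Q = Q' := funext fun ω => propext (h ω)
  rw [this]

theorem sg_mul_self (b : Bool) : sg b * sg b = 1 := by
  cases b <;> simp [sg]

theorem zmod_add_self (x : ZMod 2) : x + x = 0 := by
  revert x
  decide

variable [Fintype V] [DecidableEq V]

theorem corA (hcor : S_FKCOR) (J : V → V → ℝ) (K : V → ℝ) (A : Finset V) :
    gav J K (fun σ => ∏ v ∈ A, sg (σ v)) =
      PP J K (fun ω => ∀ x ∈ cs ea eb ω, ∑ v ∈ A, x v = 0) / PP J K (fun _ => True) := by
  classical
  have h1 := hcor V ((V × V) ⊕ V) ea eb (ej J K) A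
  have h0 := hcor V ((V × V) ⊕ V) ea eb (ej J K) ∅
  simp only [sum_ej] at h1 h0
  have hc : 0 < ∏ e : (V × V) ⊕ V, Real.exp (-ej J K e) :=
    Finset.prod_pos fun e _ => Real.exp_pos _
  have e1 : (∑ ω : Finset ((V × V) ⊕ V), (if ∀ x ∈ cs ea eb ω, ∑ v ∈ A, x v = 0 then
      fw ea eb (fun e => Real.exp (2 * ej J K e) - 1) ω else 0)) =
      PP J K (fun ω => ∀ x ∈ cs ea eb ω, ∑ v ∈ A, x v = 0) := by
    unfold PP
    apply Finset.sum_congr rfl
    intro ω _
    split_ifs <;> rfl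
  have e0 : (∑ ω : Finset ((V × V) ⊕ V), (if ∀ x ∈ cs ea eb ω, ∑ v ∈ (∅ : Finset V), x v = 0 then
      fw ea eb (fun e => Real.exp (2 * ej J K e) - 1) ω else 0)) =
      PP J K (fun _ => True) := by
    have : PP J K (fun _ => True) =
        PP J K (fun ω => ∀ x ∈ cs ea eb ω, ∑ v ∈ (∅ : Finset V), x v = 0) :=
      PP_congr J K (by intro ω; simp)
    rw [this]
    unfold PP
    apply Finset.sum_congr rfl
    intro ω _
    split_ifs <;> rfl
  rw [e1] at h1
  rw [e0] at h0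
  simp only [Finset.prod_empty, one_mul] at h0
  unfold gav
  rw [h1, h0, mul_div_mul_left _ _ hc.ne']

omit [Fintype V] in
/-- Multiplying a character by one more spin. -/
theorem addv (A : Finset V) (w : V) : ∃ B : Finset V,
    (∀ σ : V → Bool, ∏ v ∈ B, sg (σ v) = sg (σ w) * ∏ v ∈ A, sg (σ v)) ∧
    (∀ x : V → ZMod 2, ∑ v ∈ B, x v = x w + ∑ v ∈ A, x v) := by
  by_cases hw : w ∈ A
  · refine ⟨A.erase w, ?_, ?_⟩
    · intro σ
      rw [← Finset.mul_prod_erase A _ hw, ← mul_assoc, sg_mul_self, one_mul]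
    · intro x
      rw [← Finset.add_sum_erase A _ hw, ← add_assoc, zmod_add_self, zero_add]
  · refine ⟨insert w A, ?_, ?_⟩
    · intro σ
      rw [Finset.prod_insert hw]
    · intro x
      rw [Finset.sum_insert hw]

theorem cor1 (hcor : S_FKCOR) (J : V → V → ℝ) (K : V → ℝ) (o : V) :
    gav J K (fun σ => sg (σ o)) =
      PP J K (fun ω => ∀ x ∈ cs ea eb ω, x o = 0) / PP J K (fun _ => True) := by
  have h := corA hcor J K {o}
  simp only [Finset.prod_singleton, Finset.sum_singleton] at h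
  exact h

theorem cor2 (hcor : S_FKCOR) (J : V → V → ℝ) (K : V → ℝ) (o u : V) :
    gav J K (fun σ => sg (σ o) * sg (σ u)) =
      PP J K (fun ω => ∀ x ∈ cs ea eb ω, x o + x u = 0) / PP J K (fun _ => True) := by
  obtain ⟨B, hB1, hB2⟩ := addv {u} o
  have h := corA hcor J K B
  simp only [hB1, hB2, Finset.prod_singleton, Finset.sum_singleton] at h
  exact h

theorem cor3 (hcor : S_FKCOR) (J : V → V → ℝ) (K : V → ℝ) (o u v : V) :
    gav J K (fun σ => sg (σ o) * (sg (σ u) * sg (σ v))) =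
      PP J K (fun ω => ∀ x ∈ cs ea eb ω, x o + (x u + x v) = 0) / PP J K (fun _ => True) := by
  obtain ⟨B, hB1, hB2⟩ := addv {v} u
  obtain ⟨C, hC1, hC2⟩ := addv B o
  have h := corA hcor J K C
  simp only [hC1, hC2, hB1, hB2, Finset.prod_singleton, Finset.sum_singleton] at h
  exact h

omit [Fintype V] [DecidableEq V] in
theorem cs_anti {ω ω' : Finset ((V × V) ⊕ V)} (h : ω ⊆ ω') {x : V → ZMod 2}
    (hx : x ∈ cs ea eb ω') : x ∈ cs ea eb ω := fun e he => hx e (h he)

theorem fkg (hfkg : S_FKFKG) {J : V → V → ℝ} {K : V → ℝ} (hJ : ∀ u v, 0 ≤ J u v)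
    (hK : ∀ u, 0 ≤ K u) (Q Q' : Finset ((V × V) ⊕ V) → Prop)
    (hQ : ∀ ω ω', ω ⊆ ω' → Q ω → Q ω') (hQ' : ∀ ω ω', ω ⊆ ω' → Q' ω → Q' ω') :
    PP J K Q * PP J K Q' ≤ PP J K (fun _ => True) * PP J K (fun ω => Q ω ∧ Q' ω) := by
  classical
  have h := hfkg V ((V × V) ⊕ V) ea eb (er J K) (fun ω => if Q ω then 1 else 0)
    (fun ω => if Q' ω then 1 else 0) (er_nonneg hJ hK) (by intro ω; split_ifs <;> norm_num)
    (by intro ω; split_ifs <;> norm_num)
    (by
      intro ω ω' hle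
      dsimp only
      by_cases h1 : Q ω
      · rw [if_pos h1, if_pos (hQ ω ω' hle h1)]
      · rw [if_neg h1]
        split_ifs <;> norm_num)
    (by
      intro ω ω' hle
      dsimp only
      by_cases h1 : Q' ω
      · rw [if_pos h1, if_pos (hQ' ω ω' hle h1)]
      · rw [if_neg h1]
        split_ifs <;> norm_num)
  have e1 : ∑ ω, fw ea eb (er J K) ω * (if Q ω then (1 : ℝ) else 0) = PP J K Q := by
    unfold PP
    apply Finset.sum_congr rfl
    intro ω _
    split_ifs <;> simp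
  have e2 : ∑ ω, fw ea eb (er J K) ω * (if Q' ω then (1 : ℝ) else 0) = PP J K Q' := by
    unfold PP
    apply Finset.sum_congr rfl
    intro ω _
    split_ifs <;> simp
  have e3 : ∑ ω, fw ea eb (er J K) ω = PP J K (fun _ => True) := by
    unfold PP
    apply Finset.sum_congr rfl
    intro ω _
    simp
  have e4 : ∑ ω, fw ea eb (er J K) ω * ((if Q ω then (1 : ℝ) else 0) * (if Q' ω then (1 : ℝ) else 0))
      = PP J K (fun ω => Q ω ∧ Q' ω) := by
    unfold PP
    apply Finset.sum_congr rfl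
    intro ω _
    by_cases h1 : Q ω <;> by_cases h2 : Q' ω <;> simp [h1, h2]
  rw [e1, e2, e3, e4] at h
  exact h

/-- Restriction of the couplings to `S`. -/
theorem PP_res (J : V → V → ℝ) (K : V → ℝ) (S : Finset V)
    (Q : Finset ((V × V) ⊕ V) → Prop) :
    PP (resJ J S) 0 Q = ∑ ω ∈ (inn ea eb S).powerset,
      (open Classical in if Q ω then fw ea eb (er J K) ω else 0) := by
  classical
  have hmem : ∀ e : (V × V) ⊕ V, e ∈ inn ea eb S ↔
      ((∃ u ∈ S, ea e = some u) ∧ ∃ v ∈ S, eb e = some v) := by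
    intro e
    unfold inn
    rw [Finset.mem_filter]
    exact ⟨fun h => h.2, fun h => ⟨Finset.mem_univ _, h⟩⟩
  have hin : ∀ e : (V × V) ⊕ V, e ∈ inn ea eb S → er (resJ J S) 0 e = er J K e := by
    intro e he
    rw [hmem] at he
    rcases e with ⟨u, v⟩ | u
    · simp only [ea, eb, Sum.elim_inl, Option.some.injEq] at he
      obtain ⟨⟨u', hu', hu⟩, v', hv', hv⟩ := he
      subst hu
      subst hv
      simp [er, ej, resJ, hu', hv']
    · simp [eb] at he
  have hout : ∀ e : (V × V) ⊕ V, e ∉ inn ea eb S → er (resJ J S) 0 e = 0 := by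
    intro e he
    rcases e with ⟨u, v⟩ | u
    · have h' : ¬ (u ∈ S ∧ v ∈ S) := by
        intro h
        apply he
        rw [hmem]
        simp only [ea, eb, Sum.elim_inl, Option.some.injEq]
        exact ⟨⟨u, h.1, rfl⟩, v, h.2, rfl⟩
      simp [er, ej, resJ, h']
    · simp [er, ej]
  unfold PP
  symm
  have hsub : (inn ea eb S).powerset ⊆ (univ : Finset (Finset ((V × V) ⊕ V))) :=
    Finset.subset_univ _
  have h1 : ∑ ω ∈ (inn ea eb S).powerset, (if Q ω then fw ea eb (er J K) ω else 0) =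
      ∑ ω ∈ (inn ea eb S).powerset, (if Q ω then fw ea eb (er (resJ J S) 0) ω else 0) := by
    apply Finset.sum_congr rfl
    intro ω hω
    rw [Finset.mem_powerset] at hω
    have h2 : fw ea eb (er J K) ω = fw ea eb (er (resJ J S) 0) ω := by
      unfold fw
      congr 1
      apply Finset.prod_congr rfl
      intro e he
      exact (hin e (hω he)).symm
    rw [h2]
  rw [h1]
  apply Finset.sum_subset hsub
  intro ω _ hω
  rw [Finset.mem_powerset, Finset.not_subset] at hω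
  obtain ⟨e, he, he'⟩ := hω
  have h2 : fw ea eb (er (resJ J S) 0) ω = 0 := by
    unfold fw
    rw [Finset.prod_eq_zero he (hout e he'), zero_mul]
  rw [h2]
  simp

theorem dm (hcor : S_FKCOR) (hdm : S_FKDM) {J : V → V → ℝ} {K : V → ℝ}
    (hJ : ∀ u v, 0 ≤ J u v) (S : Finset V) (o u : V)
    (ho : o ∈ S) (hu : u ∈ S) :
    PP J K (fun ω => unc ea eb ω = S ∧ ∀ x ∈ cs ea eb ω, x o = x u) =
      PP J K (fun ω => unc ea eb ω = S) *
        gav (resJ J S) 0 (fun σ => sg (σ o) * sg (σ u)) := by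
  classical
  have h := hdm V ((V × V) ⊕ V) ea eb (er J K) S o u ho hu
  have hres : ∀ u v, 0 ≤ resJ J S u v := by
    intro u v
    unfold resJ
    split_ifs
    · exact hJ u v
    · exact le_rfl
  have hpos : 0 < PP (resJ J S) 0 (fun _ => True) :=
    PP_true_pos hres (fun _ => le_rfl)
  have e1 : (∑ ω : Finset ((V × V) ⊕ V),
      (if unc ea eb ω = S ∧ ∀ x ∈ cs ea eb ω, x o = x u then fw ea eb (er J K) ω else 0)) =
      PP J K (fun ω => unc ea eb ω = S ∧ ∀ x ∈ cs ea eb ω, x o = x u) := by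
    unfold PP
    apply Finset.sum_congr rfl
    intro ω _
    split_ifs <;> rfl
  have e2 : (∑ ω : Finset ((V × V) ⊕ V), (if unc ea eb ω = S then fw ea eb (er J K) ω else 0)) =
      PP J K (fun ω => unc ea eb ω = S) := by
    unfold PP
    apply Finset.sum_congr rfl
    intro ω _
    split_ifs <;> rfl
  have e3 : (∑ ω ∈ (inn ea eb S).powerset, fw ea eb (er J K) ω) =
      PP (resJ J S) 0 (fun _ => True) := by
    rw [PP_res J K S]
    simp
  have e4 : (∑ ω ∈ (inn ea eb S).powerset,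
      (if ∀ x ∈ cs ea eb ω, x o = x u then fw ea eb (er J K) ω else 0)) =
      PP (resJ J S) 0 (fun ω => ∀ x ∈ cs ea eb ω, x o + x u = 0) := by
    have hiff : ∀ ω : Finset ((V × V) ⊕ V), (∀ x ∈ cs ea eb ω, x o + x u = 0) ↔
        (∀ x ∈ cs ea eb ω, x o = x u) := by
      intro ω
      constructor
      · intro h x hx
        have h1 := h x hx
        have h2 : x o = x o + (x u + x u) := by rw [zmod_add_self, add_zero]
        rw [h2, ← add_assoc, h1, zero_add]
      · intro h x hx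
        rw [h x hx, zmod_add_self]
    rw [PP_congr _ _ hiff, PP_res J K S]
    apply Finset.sum_congr rfl
    intro ω _
    split_ifs <;> rfl
  have h' : PP J K (fun ω => unc ea eb ω = S ∧ ∀ x ∈ cs ea eb ω, x o = x u) *
      PP (resJ J S) 0 (fun _ => True) = PP J K (fun ω => unc ea eb ω = S) *
      PP (resJ J S) 0 (fun ω => ∀ x ∈ cs ea eb ω, x o + x u = 0) := by
    rw [← e1, ← e2, ← e3, ← e4]
    exact h
  rw [cor2 hcor (resJ J S) 0 o u, mul_div_assoc', eq_div_iff hpos.ne']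
  exact h'

theorem mem_unc (ω : Finset ((V × V) ⊕ V)) (o : V) :
    o ∈ unc ea eb ω ↔ ∃ x ∈ cs ea eb ω, x o ≠ 0 := by
  classical
  simp [unc]

theorem not_mem_unc (ω : Finset ((V × V) ⊕ V)) (o : V) :
    o ∉ unc ea eb ω ↔ ∀ x ∈ cs ea eb ω, x o = 0 := by
  rw [mem_unc]
  push Not
  rfl

/-- Summing over the values of `unc`. -/
theorem PP_sum (J : V → V → ℝ) (K : V → ℝ) (R : Finset V → Prop) [DecidablePred R]
    (Q : Finset ((V × V) ⊕ V) → Prop) :
    ∑ S, (if R S then PP J K (fun ω => unc ea eb ω = S ∧ Q ω) else 0) =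
      PP J K (fun ω => R (unc ea eb ω) ∧ Q ω) := by
  classical
  unfold PP
  have h1 : ∀ S : Finset V, (if R S then
      (∑ ω : Finset ((V × V) ⊕ V), if unc ea eb ω = S ∧ Q ω then fw ea eb (er J K) ω else 0)
        else 0) = ∑ ω : Finset ((V × V) ⊕ V), (if unc ea eb ω = S then
          (if R S ∧ Q ω then fw ea eb (er J K) ω else 0) else 0) := by
    intro S
    by_cases hR : R S
    · rw [if_pos hR]
      apply Finset.sum_congr rfl
      intro ω _
      by_cases h1 : unc ea eb ω = S <;> by_cases h2 : Q ω <;> simp [h1, h2, hR]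
    · rw [if_neg hR]
      symm
      apply Finset.sum_eq_zero
      intro ω _
      simp [hR]
  calc _ = ∑ S : Finset V, ∑ ω : Finset ((V × V) ⊕ V), (if unc ea eb ω = S then
          (if R S ∧ Q ω then fw ea eb (er J K) ω else 0) else 0) := by
        apply Finset.sum_congr rfl
        intro S _
        rw [← h1 S]
        by_cases hR : R S
        · rw [if_pos hR, if_pos hR]
          apply Finset.sum_congr rfl
          intro ω _
          split_ifs <;> rfl
        · rw [if_neg hR, if_neg hR]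
    _ = ∑ ω : Finset ((V × V) ⊕ V), ∑ S : Finset V, (if unc ea eb ω = S then
          (if R S ∧ Q ω then fw ea eb (er J K) ω else 0) else 0) := Finset.sum_comm
    _ = _ := by
        apply Finset.sum_congr rfl
        intro ω _
        rw [Finset.sum_ite_eq]
        simp

omit [DecidableEq V] in
/-- Three disjoint events inside a fourth one. -/
theorem PP_add3_le {J : V → V → ℝ} {K : V → ℝ} (hJ : ∀ u v, 0 ≤ J u v)
    (hK : ∀ u, 0 ≤ K u) (E0 E1 E2 Q : Finset ((V × V) ⊕ V) → Prop)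
    (h01 : ∀ ω, E0 ω → ¬ E1 ω) (h02 : ∀ ω, E0 ω → ¬ E2 ω) (h12 : ∀ ω, E1 ω → ¬ E2 ω)
    (h0 : ∀ ω, E0 ω → Q ω) (h1 : ∀ ω, E1 ω → Q ω) (h2 : ∀ ω, E2 ω → Q ω) :
    PP J K E0 + PP J K E1 + PP J K E2 ≤ PP J K Q := by
  classical
  unfold PP
  rw [← Finset.sum_add_distrib, ← Finset.sum_add_distrib]
  apply Finset.sum_le_sum
  intro ω _
  have hw := fw_nonneg hJ hK ω
  by_cases a0 : E0 ω
  · rw [if_pos a0, if_neg (h01 ω a0), if_neg (h02 ω a0), if_pos (h0 ω a0)]
    simp
  · rw [if_neg a0]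
    by_cases a1 : E1 ω
    · rw [if_pos a1, if_neg (h12 ω a1), if_pos (h1 ω a1)]
      simp
    · rw [if_neg a1]
      by_cases a2 : E2 ω
      · rw [if_pos a2, if_pos (h2 ω a2)]
        simp
      · rw [if_neg a2]
        split_ifs
        · simpa using hw
        · simp

theorem arith1 (Z a b E s Q : ℝ) (hZ : 0 < Z) (hq : a * b ≤ Z * E) (hs : E + s ≤ Q) :
    s / Z ≤ Q / Z - a / Z * (b / Z) := by
  have h1 : a / Z * (b / Z) ≤ E / Z := by
    rw [div_mul_div_comm, div_le_div_iff₀ (mul_pos hZ hZ) hZ]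
    nlinarith
  have h2 : (E + s) / Z ≤ Q / Z := div_le_div_of_nonneg_right hs hZ.le
  rw [add_div] at h2
  linarith

/-- **Packet FKDEC.** -/
theorem fkdec (hcor : S_FKCOR) (hfkg : S_FKFKG) (hdm : S_FKDM) : S_FKDEC := by
  classical
  intro V _ _ J K o hJ hK
  have hZ : 0 < PP J K (fun _ => True) := PP_true_pos hJ hK
  set Z : ℝ := PP J K (fun _ => True) with hZdef
  refine ⟨fun S => PP J K (fun ω => unc ea eb ω = S) / Z, ?_, ?_, ?_, ?_, ?_⟩
  · intro S
    exact div_nonneg (PP_nonneg hJ hK _) hZ.le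
  · have h := PP_sum J K (fun _ => True) (fun _ => True)
    simp only [if_true, and_true] at h
    rw [← Finset.sum_div, h]
    have : PP J K (fun _ => True) = Z := rfl
    rw [this]
    exact div_self hZ.ne'
  · have h := PP_sum J K (fun S => o ∉ S) (fun _ => True)
    simp only [and_true] at h
    rw [cor1 hcor]
    have h2 : PP J K (fun ω => o ∉ unc ea eb ω) = PP J K (fun ω => ∀ x ∈ cs ea eb ω, x o = 0) :=
      PP_congr J K (fun ω => not_mem_unc ω o)
    rw [← h2, ← h, Finset.sum_div]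
    apply Finset.sum_congr rfl
    intro S _
    by_cases hoS : o ∈ S
    · simp [hoS]
    · simp [hoS, hZdef]
  · intro u v
    have hq : PP J K (fun ω => ∀ x ∈ cs ea eb ω, x o = 0) *
        PP J K (fun ω => ∀ x ∈ cs ea eb ω, x u + x v = 0) ≤
        Z * PP J K (fun ω => (∀ x ∈ cs ea eb ω, x o = 0) ∧ ∀ x ∈ cs ea eb ω, x u + x v = 0) :=
      fkg hfkg hJ hK _ _ (fun ω ω' h hx x hx' => hx x (cs_anti h hx'))
        (fun ω ω' h hx x hx' => hx x (cs_anti h hx'))
    have hs := PP_add3_le hJ hK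
      (fun ω => (∀ x ∈ cs ea eb ω, x o = 0) ∧ ∀ x ∈ cs ea eb ω, x u + x v = 0)
      (fun ω => (o ∈ unc ea eb ω ∧ u ∈ unc ea eb ω ∧ v ∉ unc ea eb ω) ∧
        ∀ x ∈ cs ea eb ω, x o = x u)
      (fun ω => (o ∈ unc ea eb ω ∧ v ∈ unc ea eb ω ∧ u ∉ unc ea eb ω) ∧
        ∀ x ∈ cs ea eb ω, x o = x v)
      (fun ω => ∀ x ∈ cs ea eb ω, x o + (x u + x v) = 0)
      (fun ω h0 h1 => (not_mem_unc ω o).mpr h0.1 h1.1.1)
      (fun ω h0 h1 => (not_mem_unc ω o).mpr h0.1 h1.1.1)
      (fun ω h0 h1 => h1.1.2.2 h0.1.2.1)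
      (fun ω h x hx => by rw [h.1 x hx, h.2 x hx, add_zero])
      (fun ω h x hx => by
        rw [h.2 x hx, (not_mem_unc ω v).mp h.1.2.2 x hx, add_zero, zmod_add_self])
      (fun ω h x hx => by
        rw [h.2 x hx, (not_mem_unc ω u).mp h.1.2.2 x hx, zero_add, zmod_add_self])
    rw [cor3 hcor, cor1 hcor, cor2 hcor]
    have hsum1 := PP_sum J K (fun S => o ∈ S ∧ u ∈ S ∧ v ∉ S)
      (fun ω => ∀ x ∈ cs ea eb ω, x o = x u)
    have hsum2 := PP_sum J K (fun S => o ∈ S ∧ v ∈ S ∧ u ∉ S)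
      (fun ω => ∀ x ∈ cs ea eb ω, x o = x v)
    rw [← hsum1, ← hsum2] at hs
    have hL : ∑ S, (if o ∈ S then PP J K (fun ω => unc ea eb ω = S) / Z *
          ((if u ∈ S ∧ v ∉ S then gav (resJ J S) 0 (fun σ => sg (σ o) * sg (σ u)) else 0) +
           (if v ∈ S ∧ u ∉ S then gav (resJ J S) 0 (fun σ => sg (σ o) * sg (σ v)) else 0))
          else 0) =
        (∑ S, (if o ∈ S ∧ u ∈ S ∧ v ∉ S then
            PP J K (fun ω => unc ea eb ω = S ∧ ∀ x ∈ cs ea eb ω, x o = x u) else 0) +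
          ∑ S, (if o ∈ S ∧ v ∈ S ∧ u ∉ S then
            PP J K (fun ω => unc ea eb ω = S ∧ ∀ x ∈ cs ea eb ω, x o = x v) else 0)) / Z := by
      rw [← Finset.sum_add_distrib, Finset.sum_div]
      apply Finset.sum_congr rfl
      intro S _
      by_cases ho : o ∈ S
      · rw [if_pos ho]
        by_cases hu : u ∈ S
        · by_cases hv : v ∈ S
          · simp [hu, hv]
          · rw [dm hcor hdm hJ S o u ho hu]
            simp [ho, hu, hv]
            ring
        · by_cases hv : v ∈ S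
          · rw [dm hcor hdm hJ S o v ho hv]
            simp [ho, hu, hv]
            ring
          · simp [hu, hv]
      · simp [ho]
    rw [hL]
    have hZ' : PP J K (fun _ => True) = Z := rfl
    rw [hZ']
    apply arith1 _ _ _ _ _ _ hZ hq
    rw [← add_assoc]
    exact hs
  · intro u
    have hq : PP J K (fun ω => ∀ x ∈ cs ea eb ω, x o = 0) *
        PP J K (fun ω => ∀ x ∈ cs ea eb ω, x u = 0) ≤
        Z * PP J K (fun ω => (∀ x ∈ cs ea eb ω, x o = 0) ∧ ∀ x ∈ cs ea eb ω, x u = 0) :=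
      fkg hfkg hJ hK _ _ (fun ω ω' h hx x hx' => hx x (cs_anti h hx'))
        (fun ω ω' h hx x hx' => hx x (cs_anti h hx'))
    have hs := PP_add3_le hJ hK
      (fun ω => (∀ x ∈ cs ea eb ω, x o = 0) ∧ ∀ x ∈ cs ea eb ω, x u = 0)
      (fun ω => (o ∈ unc ea eb ω ∧ u ∈ unc ea eb ω) ∧ ∀ x ∈ cs ea eb ω, x o = x u)
      (fun _ => False)
      (fun ω => ∀ x ∈ cs ea eb ω, x o + x u = 0)
      (fun ω h0 h1 => (not_mem_unc ω o).mpr h0.1 h1.1.1)
      (fun ω _ h1 => h1)
      (fun ω _ h1 => h1)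
      (fun ω h x hx => by rw [h.1 x hx, h.2 x hx, add_zero])
      (fun ω h x hx => by rw [h.2 x hx, zmod_add_self])
      (fun ω h => h.elim)
    have hF : PP J K (fun _ => False) = 0 := by
      unfold PP
      simp
    rw [hF, add_zero] at hs
    rw [cor2 hcor, cor1 hcor, cor1 hcor]
    have hsum1 := PP_sum J K (fun S => o ∈ S ∧ u ∈ S) (fun ω => ∀ x ∈ cs ea eb ω, x o = x u)
    rw [← hsum1] at hs
    have hL : ∑ S, (if o ∈ S then PP J K (fun ω => unc ea eb ω = S) / Z *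
          (if u ∈ S then gav (resJ J S) 0 (fun σ => sg (σ o) * sg (σ u)) else 0)
          else 0) =
        (∑ S, (if o ∈ S ∧ u ∈ S then
            PP J K (fun ω => unc ea eb ω = S ∧ ∀ x ∈ cs ea eb ω, x o = x u) else 0)) / Z := by
      rw [Finset.sum_div]
      apply Finset.sum_congr rfl
      intro S _
      by_cases ho : o ∈ S
      · rw [if_pos ho]
        by_cases hu : u ∈ S
        · rw [dm hcor hdm hJ S o u ho hu]
          simp [ho, hu]
          ring
        · simp [hu]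
      · simp [ho]
    rw [hL]
    have hZ' : PP J K (fun _ => True) = Z := rfl
    rw [hZ']
    exact arith1 _ _ _ _ _ _ hZ hq hs

end Pool.Agent.Helper65.Isg
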