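import Pool.Agent.Helper70.Isg.Goals2

/-!
# Packet PATH of MP_600500_pr: probability of one dependency path
-/

open MeasureTheory Finset

noncomputable section

namespace Pool.Agent.Helper65.Isg.Path

open Pool.Agent.Helper70.Isg

/-- The sequence `s, f 0, f 1, ..`. -/
def cns (s : ℕ) (f : ℕ → ℕ) : ℕ → ℕ
  | 0 => s
  | i + 1 => f i

/-- Decreasing patterns starting at `s`. -/
theorem patt (n : ℕ) : ∀ s : ℕ, ∃ A : Finset (ℕ → ℕ), A.card ≤ 2 ^ s * 2 ^ n ∧
    ∀ t : ℕ → ℕ, t 0 = s → (∀ i < n, t (i + 1) ≤ t i) → ∃ f ∈ A, ∀ i ≤ n, f i = t i := by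
  classical
  induction n with
  | zero =>
    intro s
    refine ⟨{fun _ => s}, ?_, ?_⟩
    · rw [Finset.card_singleton, pow_zero, mul_one]
      exact Nat.one_le_two_pow
    · intro t ht _
      refine ⟨fun _ => s, Finset.mem_singleton_self _, ?_⟩
      intro i hi
      have : i = 0 := by omega
      rw [this, ht]
  | succ n ih =>
    intro s
    choose A hA1 hA2 using ih
    refine ⟨(range (s + 1)).biUnion fun s' => (A s').image (cns s), ?_, ?_⟩
    · calc _ ≤ ∑ s' ∈ range (s + 1), ((A s').image (cns s)).card :=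
            Finset.card_biUnion_le
        _ ≤ ∑ s' ∈ range (s + 1), 2 ^ s' * 2 ^ n :=
            Finset.sum_le_sum fun s' _ => Finset.card_image_le.trans (hA1 s')
        _ = (∑ s' ∈ range (s + 1), 2 ^ s') * 2 ^ n := by rw [Finset.sum_mul]
        _ ≤ 2 ^ (s + 1) * 2 ^ n := by
            apply Nat.mul_le_mul_right
            exact (Nat.geomSum_lt (le_refl 2) (fun k hk => Finset.mem_range.mp hk)).le
        _ = 2 ^ s * 2 ^ (n + 1) := by ring
    · intro t ht hdec
      obtain ⟨f, hf, hfi⟩ := hA2 (t 1) (fun i => t (i + 1)) rfl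
        (fun i hi => hdec (i + 1) (by omega))
      refine ⟨cns s f, ?_, ?_⟩
      · rw [Finset.mem_biUnion]
        refine ⟨t 1, ?_, ?_⟩
        · rw [Finset.mem_range]
          have := hdec 0 (by omega)
          rw [ht] at this
          have h2 : t (0 + 1) = t 1 := rfl
          omega
        · exact Finset.mem_image_of_mem _ hf
      · intro i hi
        cases i with
        | zero => exact ht.symm
        | succ i => exact hfi i (by omega)

/-- Decreasing patterns with values less than `L`. -/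
theorem patt_all (L n : ℕ) : ∃ A : Finset (ℕ → ℕ), A.card ≤ 2 ^ L * 2 ^ n ∧
    ∀ t : ℕ → ℕ, t 0 < L → (∀ i < n, t (i + 1) ≤ t i) → ∃ f ∈ A, ∀ i ≤ n, f i = t i := by
  classical
  choose A hA1 hA2 using patt n
  refine ⟨(range L).biUnion A, ?_, ?_⟩
  · calc _ ≤ ∑ s' ∈ range L, (A s').card := Finset.card_biUnion_le
      _ ≤ ∑ s' ∈ range L, 2 ^ s' * 2 ^ n := Finset.sum_le_sum fun s' _ => hA1 s'
      _ = (∑ s' ∈ range L, 2 ^ s') * 2 ^ n := by rw [Finset.sum_mul]
      _ ≤ 2 ^ L * 2 ^ n := by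
          apply Nat.mul_le_mul_right
          exact (Nat.geomSum_lt (le_refl 2) (fun k hk => Finset.mem_range.mp hk)).le
  · intro t ht hdec
    obtain ⟨f, hf, hfi⟩ := hA2 (t 0) t rfl hdec
    exact ⟨f, Finset.mem_biUnion.mpr ⟨t 0, Finset.mem_range.mpr ht, hf⟩, hfi⟩

theorem rho_pow (K : ℕ) (hK : 0 < K) : ((2 / 3 : ℝ) ^ (1 / (K : ℝ))) ^ K = 2 / 3 := by
  rw [one_div]
  exact Real.rpow_inv_natCast_pow (by norm_num) hK.ne'

theorem rho_pos (K : ℕ) : 0 < (2 / 3 : ℝ) ^ (1 / (K : ℝ)) := Real.rpow_pos_of_pos (by norm_num) _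

theorem rho_le_one (K : ℕ) : (2 / 3 : ℝ) ^ (1 / (K : ℝ)) ≤ 1 :=
  Real.rpow_le_one (by norm_num) (by norm_num) (by positivity)

theorem pow_bound (K : ℕ) (hK : 0 < K) (a l : ℕ) (h : l ≤ K * (a + 1)) :
    (2 / 3 : ℝ) ^ a ≤ (3 / 2) * ((2 / 3 : ℝ) ^ (1 / (K : ℝ))) ^ l := by
  have h1 : ((2 / 3 : ℝ) ^ (1 / (K : ℝ))) ^ (K * (a + 1)) ≤ ((2 / 3 : ℝ) ^ (1 / (K : ℝ))) ^ l :=
    pow_le_pow_of_le_one (rho_pos K).le (rho_le_one K) h
  rw [pow_mul, rho_pow K hK, pow_succ] at h1
  linarith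

theorem unif_le (L : ℕ) (hL : 0 < L) (c : ℕ) :
    unifL L {x : Fin L | (x : ℕ) = c} ≤ ENNReal.ofReal (1 / L) := by
  have hL' : (0 : ℝ) < L := by exact_mod_cast hL
  have h1 : ENNReal.ofReal (1 / L) = (L : ENNReal)⁻¹ := by
    rw [one_div, ENNReal.ofReal_inv_of_pos hL', ENNReal.ofReal_natCast]
  rw [h1]
  unfold unifL
  rw [Measure.smul_apply, smul_eq_mul]
  have h2 : Measure.count {x : Fin L | (x : ℕ) = c} ≤ 1 := by
    by_cases hc : c < L
    · have : {x : Fin L | (x : ℕ) = c} = {⟨c, hc⟩} := by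
        ext x
        simp only [Set.mem_ofPred_eq, Set.mem_singleton_iff]
        constructor
        · intro h
          exact Fin.ext h
        · intro h
          rw [h]
      rw [this, Measure.count_singleton]
    · have : {x : Fin L | (x : ℕ) = c} = ∅ := by
        ext x
        simp only [Set.mem_ofPred_eq, Set.mem_empty_iff_false, iff_false]
        intro h
        exact hc (h ▸ x.2)
      rw [this]
      simp
  calc (L : ENNReal)⁻¹ * Measure.count {x : Fin L | (x : ℕ) = c} ≤ (L : ENNReal)⁻¹ * 1 := by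
        gcongr
    _ = (L : ENNReal)⁻¹ := mul_one _

theorem path (hB : S_BASIC) (hP : S_P2) : S_PATH := by
  classical
  intro d K L hK hL w n m hinj
  obtain ⟨_, _, _, hball, _⟩ := hB d
  obtain ⟨hU, hG, _, hgeo, _, hP2⟩ := hP d L hL
  have hLR : (0 : ℝ) < L := by exact_mod_cast hL
  set ρ : ℝ := (2 / 3 : ℝ) ^ (1 / (K : ℝ)) with hρ
  have hρ0 : 0 < ρ := rho_pos K
  obtain ⟨A, hA1, hA2⟩ := patt_all L n
  -- lengths
  set l : ℕ → ℕ := fun i => if i < n then l1 (w (i + 1) - w i) else m with hl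
  set a : ℕ → ℕ := fun i => if i < n then (l i - 1) / K else m / K with ha
  have hal : ∀ i, l i ≤ K * (a i + 1) := by
    intro i
    by_cases hi : i < n
    · have : a i = (l i - 1) / K := by simp [ha, hi]
      rw [this]
      have h1 := Nat.div_add_mod (l i - 1) K
      have h2 := Nat.mod_lt (l i - 1) hK
      rw [mul_add, mul_one]
      omega
    · have h0 : a i = m / K := by simp [ha, hi]
      have h0' : l i = m := by simp [hl, hi]
      rw [h0, h0']
      have h1 := Nat.div_add_mod m K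
      have h2 := Nat.mod_lt m hK
      rw [mul_add, mul_one]
      omega
  -- the boxes
  set B : (ℕ → ℕ) → Site d → Set (Fin L × ℕ) := fun f v =>
    {z | ∀ i ≤ n, w i = v → (z.1 : ℕ) = f i ∧ a i ≤ z.2} with hBdef
  set F : Finset (Site d) := (range (n + 1)).image w with hF
  have hsub : {y : Inp d L | (∀ i < n, w (i + 1) ∈ ball (w i) (K * ((y (w i)).2 + 1)) ∧
        lab y (w (i + 1)) ≤ lab y (w i)) ∧ m < K * ((y (w n)).2 + 1)} ⊆
      ⋃ f ∈ A, {y : Inp d L | ∀ v ∈ F, y v ∈ B f v} := by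
    intro y hy
    obtain ⟨hy1, hy2⟩ := hy
    obtain ⟨f, hf, hfi⟩ := hA2 (fun i => lab y (w i)) ((y (w 0)).1.2) (fun i hi => (hy1 i hi).2)
    simp only [Set.mem_iUnion]
    refine ⟨f, hf, ?_⟩
    intro v _ i hi hiv
    subst hiv
    refine ⟨(hfi i hi).symm, ?_⟩
    by_cases hin : i < n
    · have h1 := (hy1 i hin).1
      rw [hball] at h1
      have h2 : a i = (l i - 1) / K := by simp [ha, hin]
      have h3 : l i = l1 (w (i + 1) - w i) := by simp [hl, hin]
      rw [h2, h3]
      have h4 : l1 (w (i + 1) - w i) - 1 < K * ((y (w i)).2 + 1) := by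
        have : 0 < K * ((y (w i)).2 + 1) := Nat.mul_pos hK (Nat.succ_pos _)
        omega
      have h5 : (l1 (w (i + 1) - w i) - 1) / K < (y (w i)).2 + 1 := Nat.div_lt_of_lt_mul h4
      omega
    · have h2 : a i = m / K := by simp [ha, hin]
      have hin' : i = n := by omega
      rw [h2, hin']
      have h5 : m / K < (y (w n)).2 + 1 := Nat.div_lt_of_lt_mul hy2
      omega
  -- the probability of one box
  have hbox : ∀ f : ℕ → ℕ, P2 d L {y : Inp d L | ∀ v ∈ F, y v ∈ B f v} ≤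
      ENNReal.ofReal (∏ i ∈ range (n + 1), (1 / L * ((3 / 2) * ρ ^ l i))) := by
    intro f
    rw [hP2 F (B f), hF, Finset.prod_image]
    · rw [ENNReal.ofReal_prod_of_nonneg (fun i _ => by positivity)]
      apply Finset.prod_le_prod'
      intro i hi
      have hi' : i ≤ n := by
        have := Finset.mem_range.mp hi
        omega
      have hset : B f (w i) ⊆ {x : Fin L | (x : ℕ) = f i} ×ˢ {k : ℕ | a i ≤ k} := by
        intro z hz
        have := hz i hi' rfl
        exact ⟨this.1, this.2⟩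
      calc ((unifL L).prod geo) (B f (w i)) ≤
            ((unifL L).prod geo) ({x : Fin L | (x : ℕ) = f i} ×ˢ {k : ℕ | a i ≤ k}) :=
            measure_mono hset
        _ = unifL L {x : Fin L | (x : ℕ) = f i} * geo {k : ℕ | a i ≤ k} := Measure.prod_prod _ _
        _ ≤ ENNReal.ofReal (1 / L) * ENNReal.ofReal ((2 / 3) ^ a i) := by
            rw [hgeo]
            gcongr
            exact unif_le L hL _
        _ ≤ ENNReal.ofReal (1 / L) * ENNReal.ofReal ((3 / 2) * ρ ^ l i) := by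
            gcongr
            exact pow_bound K hK _ _ (hal i)
        _ = ENNReal.ofReal (1 / L * ((3 / 2) * ρ ^ l i)) := by
            rw [ENNReal.ofReal_mul (p := 1 / (L : ℝ)) (by positivity)]
    · intro i hi j hj hij
      have hi' := Finset.mem_range.mp hi
      have hj' := Finset.mem_range.mp hj
      exact hinj i j (by omega) (by omega) hij
  have hprod : ∏ i ∈ range (n + 1), (1 / (L : ℝ) * ((3 / 2) * ρ ^ l i)) =
      (1 / L) ^ (n + 1) * ((∏ i ∈ range n, ((3 / 2) * ρ ^ l1 (w (i + 1) - w i))) *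
        ((3 / 2) * ρ ^ m)) := by
    rw [Finset.prod_mul_distrib, Finset.prod_const, Finset.card_range, Finset.prod_range_succ]
    congr 2
    · apply Finset.prod_congr rfl
      intro i hi
      simp [hl, Finset.mem_range.mp hi]
    · simp [hl]
  calc P2 d L {y : Inp d L | (∀ i < n, w (i + 1) ∈ ball (w i) (K * ((y (w i)).2 + 1)) ∧
        lab y (w (i + 1)) ≤ lab y (w i)) ∧ m < K * ((y (w n)).2 + 1)} ≤
      P2 d L (⋃ f ∈ A, {y : Inp d L | ∀ v ∈ F, y v ∈ B f v}) := measure_mono hsub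
    _ ≤ ∑ f ∈ A, P2 d L {y : Inp d L | ∀ v ∈ F, y v ∈ B f v} := measure_biUnion_finset_le _ _
    _ ≤ ∑ f ∈ A, ENNReal.ofReal (∏ i ∈ range (n + 1), (1 / L * ((3 / 2) * ρ ^ l i))) :=
        Finset.sum_le_sum fun f _ => hbox f
    _ = ENNReal.ofReal (A.card * ∏ i ∈ range (n + 1), (1 / L * ((3 / 2) * ρ ^ l i))) := by
        rw [Finset.sum_const, nsmul_eq_mul, ENNReal.ofReal_mul (by positivity),
          ENNReal.ofReal_natCast]
    _ ≤ _ := by
        apply ENNReal.ofReal_le_ofReal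
        rw [hprod]
        have hc : (A.card : ℝ) ≤ 2 ^ L * 2 ^ n := by exact_mod_cast hA1
        have hX : 0 ≤ (∏ i ∈ range n, ((3 / 2) * ρ ^ l1 (w (i + 1) - w i))) * ((3 / 2) * ρ ^ m) := by
          positivity
        have h1 : (A.card : ℝ) * (1 / L) ^ (n + 1) ≤ 2 ^ L * (2 / L) ^ n := by
          have hL1 : (1 : ℝ) / L ≤ 1 := by
            rw [div_le_one hLR]
            exact_mod_cast hL
          calc (A.card : ℝ) * (1 / L) ^ (n + 1) ≤ (2 ^ L * 2 ^ n) * (1 / L) ^ (n + 1) := by gcongr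
            _ = 2 ^ L * (2 / L) ^ n * (1 / L) := by
                rw [div_pow, div_pow, one_pow, pow_succ]
                field_simp
            _ ≤ 2 ^ L * (2 / L) ^ n * 1 := by gcongr
            _ = 2 ^ L * (2 / L) ^ n := mul_one _
        calc (A.card : ℝ) * ((1 / L) ^ (n + 1) *
              ((∏ i ∈ range n, ((3 / 2) * ρ ^ l1 (w (i + 1) - w i))) * ((3 / 2) * ρ ^ m))) =
            ((A.card : ℝ) * (1 / L) ^ (n + 1)) *
              ((∏ i ∈ range n, ((3 / 2) * ρ ^ l1 (w (i + 1) - w i))) * ((3 / 2) * ρ ^ m)) := by ring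
          _ ≤ (2 ^ L * (2 / L) ^ n) *
              ((∏ i ∈ range n, ((3 / 2) * ρ ^ l1 (w (i + 1) - w i))) * ((3 / 2) * ρ ^ m)) :=
              mul_le_mul_of_nonneg_right h1 hX
          _ = _ := by ring

end Pool.Agent.Helper65.Isg.Path
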